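import Pool.Agent.helper85.FC.Defs
import Pool.Agent.helper51.MT.SA

set_option autoImplicit false

/-!
# Five coefficients, module M1: the quadratic form under `mu1`, label `m` absent
-/

namespace Pool.Agent.helper85.FC

open Finset Real ArithmeticFunction Pool.Agent.helper39.MT

private lemma M1_none {k : ℕ} (p : ℝ) (v : Option (Fin k) → ℝ) :
    ∑ s, v s * Phi p s none = v none + (∑ j, v (some j)) / (p - 1) := by
  rw [Fintype.sum_option]
  simp only [Phi, reduceCtorEq, if_false, sub_zero, mul_one, sum_div]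
  congr 1
  refine sum_congr rfl fun j _ => ?_
  ring

private lemma M1_some {k : ℕ} (p : ℝ) (v : Option (Fin k) → ℝ) (i : Fin k) :
    ∑ s, v s * Phi p s (some i)
      = v none + (∑ j, v (some j)) / (p - 1) - p / (p - 1) * v (some i) := by
  rw [Fintype.sum_option]
  simp only [Phi, Option.some.injEq, mul_one]
  have : ∀ j, v (some j) * ((1 - if i = j then p else 0) / (p - 1))
      = v (some j) / (p - 1) - (if i = j then p / (p - 1) * v (some i) else 0) := by
    intro j
    split_ifs with h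
    · subst h; ring
    · ring
  rw [sum_congr rfl fun j _ => this j, sum_sub_distrib, sum_ite_eq, if_pos (mem_univ _), sum_div]
  ring

private lemma M1_sq {κ : Type*} (s : Finset κ) (w : κ → ℝ) (B c : ℝ) :
    ∑ i ∈ s, (B - c * w i) ^ 2 = s.card * B ^ 2 - 2 * c * B * ∑ i ∈ s, w i
      + c ^ 2 * ∑ i ∈ s, w i ^ 2 := by
  have : ∀ i ∈ s, (B - c * w i) ^ 2 = B ^ 2 - 2 * c * B * w i + c ^ 2 * w i ^ 2 := by
    intro i _; ring
  rw [sum_congr rfl this, sum_add_distrib, sum_sub_distrib, sum_const, nsmul_eq_mul, mul_sum,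
    mul_sum]

/-- The local inequality. -/
private lemma M1_loc {k : ℕ} {p : ℝ} (hp : 2 * (k : ℝ) + 2 ≤ p) (m : Fin k)
    (v : Option (Fin k) → ℝ) :
    ∑ e, mu1 m p e * (∑ s, v s * (if s = some m then 0 else Phi p s e)) ^ 2
      ≤ ∑ s, (if s = none then 1 + k * (1 / (p - 1)) ^ 2
          else (1 + k * (1 / (p - 1)) ^ 2) * (1 / (p - 1) * (1 + 4 * (1 / (p - 1))))) * v s ^ 2 := by
  have hk : 1 ≤ k := Nat.one_le_of_lt m.2
  have hk1 : (1 : ℝ) ≤ k := by exact_mod_cast hk
  have hp1 : (0 : ℝ) < p - 1 := by linarith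
  have hp0 : (0 : ℝ) < p := by linarith
  set w : Option (Fin k) → ℝ := fun s => if s = some m then 0 else v s with hw
  have h1 : ∀ e, (∑ s, v s * (if s = some m then 0 else Phi p s e)) = ∑ s, w s * Phi p s e := by
    intro e
    refine sum_congr rfl fun s _ => ?_
    simp only [hw]
    split_ifs <;> ring
  simp only [h1]
  rw [Fintype.sum_option (fun e => mu1 m p e * (∑ s, w s * Phi p s e) ^ 2)]
  simp only [M1_none, M1_some, mu1]
  have hwm : w (some m) = 0 := by simp [hw]
  have hw0 : w none = v none := by simp [hw]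
  have hwi : ∀ i ∈ univ.erase m, w (some i) = v (some i) := by
    intro i hi
    have : i ≠ m := ne_of_mem_erase hi
    simp [hw, this]
  have hS : ∑ j, w (some j) = ∑ j ∈ univ.erase m, w (some j) := by
    rw [← add_sum_erase univ (fun j => w (some j)) (mem_univ m), hwm, zero_add]
  rw [hS, hw0]
  set S := ∑ j ∈ univ.erase m, w (some j) with hSdef
  set Q := ∑ j ∈ univ.erase m, w (some j) ^ 2 with hQ
  set a0 := v none with ha0
  have hcard : ((univ.erase m : Finset (Fin k)).card : ℝ) = (k : ℝ) - 1 := by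
    rw [card_erase_of_mem (mem_univ m), card_univ, Fintype.card_fin, Nat.cast_sub hk]
    simp
  have hr : ∑ i : Fin k, (if i = m then 0 else 1 / (p - 1))
        * (a0 + S / (p - 1) - p / (p - 1) * w (some i)) ^ 2
      = 1 / (p - 1) * (((k : ℝ) - 1) * (a0 + S / (p - 1)) ^ 2
        - 2 * (p / (p - 1)) * (a0 + S / (p - 1)) * S + (p / (p - 1)) ^ 2 * Q) := by
    rw [← add_sum_erase univ _ (mem_univ m), if_pos rfl, zero_mul, zero_add]
    rw [← hcard, hSdef, hQ, ← M1_sq (univ.erase m) (fun i => w (some i)), mul_sum]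
    refine sum_congr rfl fun i hi => ?_
    rw [if_neg (ne_of_mem_erase hi)]
  rw [hr]
  have hid : (1 - ((k : ℝ) - 1) / (p - 1)) * (a0 + S / (p - 1)) ^ 2
      + 1 / (p - 1) * (((k : ℝ) - 1) * (a0 + S / (p - 1)) ^ 2
        - 2 * (p / (p - 1)) * (a0 + S / (p - 1)) * S + (p / (p - 1)) ^ 2 * Q)
      = a0 ^ 2 - 2 * (a0 * S) / (p - 1) ^ 2 + Q * p ^ 2 / (p - 1) ^ 3
        - S ^ 2 * (p + 1) / (p - 1) ^ 3 := by
    field_simp
    ring
  rw [hid]
  have hQ0 : 0 ≤ Q := sum_nonneg fun i _ => sq_nonneg _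
  have hSQ : S ^ 2 ≤ ((k : ℝ) - 1) * Q := by
    have h := sq_sum_le_card_mul_sum_sq (s := univ.erase m) (f := fun j => w (some j))
    rw [hcard] at h
    exact h
  have hAS : -(2 * (a0 * S)) ≤ k * a0 ^ 2 + S ^ 2 / k := by
    have h := sq_nonneg ((k : ℝ) * a0 + S)
    have hk0 : (0 : ℝ) < k := by linarith
    have : k * a0 ^ 2 + S ^ 2 / k + 2 * (a0 * S) = (k * a0 + S) ^ 2 / k := by
      field_simp
      ring
    have h2 : 0 ≤ (k * a0 + S) ^ 2 / k := by positivity
    linarith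
  have hS2 : S ^ 2 / k ≤ Q := by
    rw [div_le_iff₀ (by linarith)]
    have e : ((k : ℝ) - 1) * Q = Q * k - Q := by ring
    linarith
  set q := 1 / (p - 1) with hq
  have hq0 : 0 < q := by positivity
  have hq1 : q ≤ 1 := by
    rw [hq, div_le_one hp1]; linarith
  have hpq : p * q = 1 + q := by
    rw [hq]; field_simp; ring
  have e1 : 2 * (a0 * S) / (p - 1) ^ 2 = 2 * (a0 * S) * q ^ 2 := by
    rw [hq]; field_simp
  have e2 : Q * p ^ 2 / (p - 1) ^ 3 = Q * (q * (1 + q) ^ 2) := by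
    rw [← hpq, hq]; field_simp
  have e3 : 0 ≤ S ^ 2 * (p + 1) / (p - 1) ^ 3 := by positivity
  rw [e1, e2]
  have h2 : -(2 * (a0 * S)) * q ^ 2 ≤ (k * a0 ^ 2 + Q) * q ^ 2 := by
    refine mul_le_mul_of_nonneg_right ?_ (sq_nonneg q)
    linarith
  -- right side
  have hR : a0 ^ 2 * (1 + k * q ^ 2) + Q * (q * (1 + 3 * q + q ^ 2))
      ≤ ∑ s, (if s = none then 1 + k * q ^ 2
          else (1 + k * q ^ 2) * (q * (1 + 4 * q))) * v s ^ 2 := by
    rw [Fintype.sum_option]
    simp only [if_true, reduceCtorEq, if_false]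
    rw [← mul_sum, ← add_sum_erase univ (fun i => v (some i) ^ 2) (mem_univ m)]
    have hQv : ∑ i ∈ univ.erase m, v (some i) ^ 2 = Q := by
      rw [hQ]
      exact sum_congr rfl fun i hi => by rw [hwi i hi]
    rw [hQv]
    have hkq : 0 ≤ (k : ℝ) * q ^ 2 := by positivity
    have h3 : q * (1 + 3 * q + q ^ 2) ≤ (1 + k * q ^ 2) * (q * (1 + 4 * q)) := by
      have h5 : q * (1 + 3 * q + q ^ 2) ≤ q * (1 + 4 * q) := by
        refine mul_le_mul_of_nonneg_left ?_ hq0.le
        have := pow_le_of_le_one hq0.le hq1 two_ne_zero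
        linarith
      have h6 : 0 ≤ q * (1 + 4 * q) := by positivity
      have h8 := mul_nonneg hkq h6
      have e : (1 + (k : ℝ) * q ^ 2) * (q * (1 + 4 * q)) =
        q * (1 + 4 * q) + (k : ℝ) * q ^ 2 * (q * (1 + 4 * q)) := by ring
      linarith
    have h4 : 0 ≤ (1 + k * q ^ 2) * (q * (1 + 4 * q)) * v (some m) ^ 2 := by positivity
    have h7 := mul_le_mul_of_nonneg_left h3 hQ0
    rw [← ha0]
    have e4 : (1 + (k : ℝ) * q ^ 2) * (q * (1 + 4 * q)) * (v (some m) ^ 2 + Q) =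
      (1 + (k : ℝ) * q ^ 2) * (q * (1 + 4 * q)) * v (some m) ^ 2 +
        Q * ((1 + (k : ℝ) * q ^ 2) * (q * (1 + 4 * q))) := by ring
    have e5 : a0 ^ 2 * (1 + (k : ℝ) * q ^ 2) = (1 + (k : ℝ) * q ^ 2) * a0 ^ 2 := by ring
    linarith
  refine le_trans ?_ hR
  have e6 : ((k : ℝ) * a0 ^ 2 + Q) * q ^ 2 + Q * (q * (1 + q) ^ 2) + a0 ^ 2 =
    a0 ^ 2 * (1 + (k : ℝ) * q ^ 2) + Q * (q * (1 + 3 * q + q ^ 2)) := by ring
  have e7 : -(2 * (a0 * S)) * q ^ 2 = -(2 * (a0 * S) * q ^ 2) := by ring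
  linarith

section
variable {ι : Type*} [Fintype ι] [DecidableEq ι] {k : ℕ}

/-- M1: upper bound for the quadratic form under `mu1`, label `m` absent. -/
theorem form_upper1 (pr : ι → ℕ) (hp : ∀ p, 2 * (k : ℝ) + 2 ≤ pr p) (m : Fin k)
    (z : (ι → Option (Fin k)) → ℝ) (hz : ∀ σ, (∃ p, σ p = some m) → z σ = 0) :
    Ex (fun p => mu1 m (pr p : ℝ)) (fun e => FF pr z e ^ 2)
      ≤ (∏ p, (1 + k * (1 / ((pr p : ℝ) - 1)) ^ 2)) * ∑ σ : ι → Option (Fin k),
          (∏ p, (if σ p = none then 1 else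
            1 / ((pr p : ℝ) - 1) * (1 + 4 * (1 / ((pr p : ℝ) - 1))))) * z σ ^ 2 := by
  have hk0 : (0 : ℝ) ≤ k := Nat.cast_nonneg k
  have hk1 : (1 : ℝ) ≤ k := by exact_mod_cast Nat.one_le_of_lt m.2
  have hFF : ∀ e : ι → Option (Fin k), FF pr z e
      = ∑ σ : ι → Option (Fin k), z σ *
        ∏ p, (if σ p = some m then 0 else Phi (pr p : ℝ) (σ p) (e p)) := by
    intro e
    unfold FF
    refine sum_congr rfl fun σ _ => ?_
    by_cases h : ∃ p, σ p = some m
    · rw [hz σ h, zero_mul, zero_mul]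
    · push Not at h
      congr 1
      refine prod_congr rfl fun p _ => ?_
      rw [if_neg (h p)]
  have h := tensor (ι := ι) (Ω := Option (Fin k)) (S := Option (Fin k)) (T := Option (Fin k))
    (fun p s => if s = none then 1 + (k : ℝ) * (1 / ((pr p : ℝ) - 1)) ^ 2 else
      (1 + k * (1 / ((pr p : ℝ) - 1)) ^ 2) * (1 / ((pr p : ℝ) - 1) * (1 + 4 * (1 / ((pr p : ℝ) - 1)))))
    (fun p => mu1 m (pr p : ℝ)) (fun _ s e => if s = e then (1 : ℝ) else 0)
    (fun p s e => if s = some m then 0 else Phi (pr p : ℝ) s e)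
    (fun p e => by
      have h1 := hp p
      have h0 : (0 : ℝ) < (pr p : ℝ) - 1 := by linarith
      split_ifs <;> positivity)
    (fun p t => by
      have h1 := hp p
      have h0 : (0 : ℝ) < (pr p : ℝ) - 1 := by linarith
      cases t with
      | none =>
        simp only [mu1]
        rw [sub_nonneg, div_le_one h0]
        linarith
      | some i =>
        simp only [mu1]
        split_ifs
        · exact le_rfl
        · positivity)
    (fun p v => by
      refine (M1_loc (hp p) m v).trans (le_of_eq ?_)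
      refine sum_congr rfl fun s _ => ?_
      congr 2
      simp) z
  simp only [Ex]
  refine le_trans (le_of_eq ?_) (h.trans (le_of_eq ?_))
  · refine sum_congr rfl fun e _ => ?_
    rw [hFF e]
  · rw [mul_sum]
    refine sum_congr rfl fun e _ => ?_
    have h1 : ∀ σ : ι → Option (Fin k), (∏ p, (if σ p = e p then (1 : ℝ) else 0))
        = if σ = e then 1 else 0 := by
      intro σ
      rw [prod_boole]
      simp [funext_iff]
    simp only [h1]
    rw [← mul_assoc, ← prod_mul_distrib]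
    congr 1
    · refine prod_congr rfl fun p _ => ?_
      split_ifs <;> ring
    · simp

end

end Pool.Agent.helper85.FC
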