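import Pool.Agent.helper85.FC.Defs

set_option autoImplicit false

/-!
# Five coefficients, module M2: the majorant agrees with the weight where `m`, `m'` do not occur
-/

namespace Pool.Agent.helper85.FC

open Finset Real ArithmeticFunction Pool.Agent.helper39.MT

/-- One place: the labels `m`, `m'` can be integrated out. -/
private lemma M2_loc {k : ℕ} (m m' : Fin k) (p : ℝ) (s e : Option (Fin k))
    (he : e ≠ some m ∧ e ≠ some m') :
    Phi p s e = ∑ t, Zl2 m m' (1 / (p - 1)) s t *
      ((if t = some m ∨ t = some m' then 0 else 1) * Phi p t e) := by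
  rw [Fintype.sum_option]
  cases s with
  | none =>
    rw [sum_eq_zero]
    · simp [Zl2, Phi]
    · intro i _
      simp [Zl2]
  | some j =>
    by_cases hj : j = m ∨ j = m'
    · rw [sum_eq_zero]
      · have h1 : ¬ (some j = (none : Option (Fin k))) := by simp
        have h2 : (some j : Option (Fin k)) = some m ∨ some j = some m' := by
          simpa using hj
        have h3 : e ≠ some j := by
          rcases hj with rfl | rfl
          · exact he.1
          · exact he.2
        simp only [Zl2, if_neg h1, if_pos h2, Phi, if_neg h3]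
        simp
      · intro i _
        simp only [Zl2]
        by_cases hi : j = i
        · subst hi
          have h2 : (some j : Option (Fin k)) = some m ∨ some j = some m' := by
            simpa using hj
          rw [if_pos rfl, if_pos h2]
          simp
        · have h4 : ¬ (some j = some i) := by simpa using hi
          rw [if_neg h4, zero_mul]
    · rw [sum_eq_single j]
      · have h2 : ¬ ((some j : Option (Fin k)) = some m ∨ some j = some m') := by
          simpa using hj
        have h1 : ¬ (some j = (none : Option (Fin k))) := by simp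
        simp only [Zl2, if_neg h1, if_neg h2, if_pos rfl]
        simp
      · intro i _ hi
        have h4 : ¬ (some j = some i) := by simpa using fun h => hi h.symm
        simp only [Zl2, if_neg h4, zero_mul]
      · simp

section
variable {ι : Type*} [Fintype ι] [DecidableEq ι] {k : ℕ}

/-- All places: `FF` in terms of `yy2`. -/
private lemma M2_FF (pr : ι → ℕ) (m m' : Fin k) (y : (ι → Option (Fin k)) → ℝ)
    (e : ι → Option (Fin k)) (he : ∀ p, e p ≠ some m ∧ e p ≠ some m') :
    FF pr y e = ∑ t : ι → Option (Fin k), yy2 m m' (fun p => 1 / ((pr p : ℝ) - 1)) y t *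
      ∏ p, ((if t p = some m ∨ t p = some m' then 0 else 1) * Phi (pr p : ℝ) (t p) (e p)) := by
  unfold FF yy2
  have h1 : ∀ σ : ι → Option (Fin k), y σ * ∏ p, Phi (pr p : ℝ) (σ p) (e p)
      = ∑ t : ι → Option (Fin k), y σ * (∏ p, Zl2 m m' (1 / ((pr p : ℝ) - 1)) (σ p) (t p)) *
        ∏ p, ((if t p = some m ∨ t p = some m' then 0 else 1) * Phi (pr p : ℝ) (t p) (e p)) := by
    intro σ
    have h2 : ∏ p, Phi (pr p : ℝ) (σ p) (e p)
        = ∏ p, ∑ t ∈ (univ : Finset (Option (Fin k))), Zl2 m m' (1 / ((pr p : ℝ) - 1)) (σ p) t *
          ((if t = some m ∨ t = some m' then 0 else 1) * Phi (pr p : ℝ) t (e p)) :=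
      prod_congr rfl fun p _ => M2_loc m m' _ _ _ (he p)
    rw [h2, prod_univ_sum, Fintype.piFinset_univ, mul_sum]
    refine sum_congr rfl fun t _ => ?_
    rw [prod_mul_distrib, mul_assoc]
  rw [sum_congr rfl fun σ _ => h1 σ, sum_comm]
  refine sum_congr rfl fun t _ => ?_
  rw [sum_mul]

/-- The majorant has the same integrated coefficients. -/
private lemma M2_yy2 (m m' : Fin k) (hmm : m ≠ m') (q l : ι → ℝ) (hq : ∀ p, 0 ≤ q p) (Y : ℝ)
    (hY : 0 ≤ Y) (y : (ι → Option (Fin k)) → ℝ) (t : ι → Option (Fin k))
    (ht : ∀ p, t p ≠ some m ∧ t p ≠ some m') :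
    yy2 m m' q (hz m m' q l Y y) t = yy2 m m' q y t := by
  classical
  have hZ : 0 < ZZ q l Y t := by
    unfold ZZ
    refine sum_pos' (fun S _ => prod_nonneg fun p _ => hq p) ⟨∅, ?_, ?_⟩
    · simp [hY]
    · simp
  have key : ∀ σ : ι → Option (Fin k),
      hz m m' q l Y y σ * ∏ p, Zl2 m m' (q p) (σ p) (t p)
        = if (∀ p, σ p ≠ some m) ∧ ∑ p ∈ cls σ m', l p ≤ Y ∧ rem m' σ = t then
            yy2 m m' q y t / ZZ q l Y t * ∏ p ∈ cls σ m', q p else 0 := by
    intro σ
    by_cases h1 : ∀ p, σ p ≠ some m
    · by_cases h2 : ∑ p ∈ cls σ m', l p ≤ Y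
      · have e1 : hz m m' q l Y y σ = yy2 m m' q y (rem m' σ) / ZZ q l Y (rem m' σ) := by
          unfold hz
          rw [if_pos ⟨h1, h2⟩]
        rw [e1]
        by_cases hr : rem m' σ = t
        · rw [if_pos ⟨h1, h2, hr⟩, hr]
          congr 1
          unfold cls
          rw [prod_filter]
          refine prod_congr rfl fun p _ => ?_
          have hp : t p = if σ p = some m' then none else σ p := by
            rw [← hr]; rfl
          split_ifs with h3
          · rw [if_pos h3] at hp
            rw [hp, h3]
            simp [Zl2]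
          · rw [if_neg h3] at hp
            rw [hp]
            cases hs : σ p with
            | none => simp [Zl2]
            | some i => simp [Zl2]
        · rw [if_neg (fun h => hr h.2.2)]
          have h4 : ∃ p, rem m' σ p ≠ t p := by
            by_contra h
            push Not at h
            exact hr (funext h)
          obtain ⟨p, hp⟩ := h4
          rw [mul_eq_zero]
          right
          refine prod_eq_zero (mem_univ p) ?_
          have hp' : (if σ p = some m' then none else σ p) ≠ t p := hp
          obtain ⟨ht1, ht2⟩ := ht p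
          cases htp : t p with
          | none =>
            rw [htp] at hp'
            have h5 : σ p ≠ some m' := by
              intro h; rw [if_pos h] at hp'; exact hp' rfl
            rw [if_neg h5] at hp'
            have h6 := h1 p
            simp [Zl2, hp', h5, h6]
          | some i =>
            rw [htp] at hp' ht1 ht2
            have h7 : σ p ≠ some i := by
              intro h
              rw [h] at hp'
              have h8 : ¬ (some i = some m') := ht2
              rw [if_neg h8] at hp'
              exact hp' rfl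
            simp [Zl2, h7]
      · have e1 : hz m m' q l Y y σ = 0 := by
          unfold hz
          rw [if_neg (fun h => h2 h.2)]
        rw [e1, zero_mul, if_neg (fun h => h2 h.2.1)]
    · have e1 : hz m m' q l Y y σ = 0 := by
        unfold hz
        rw [if_neg (fun h => h1 h.1)]
      rw [e1, zero_mul, if_neg (fun h => h1 h.1)]
  have e2 : yy2 m m' q (hz m m' q l Y y) t
      = ∑ σ : ι → Option (Fin k), hz m m' q l Y y σ * ∏ p, Zl2 m m' (q p) (σ p) (t p) := rfl
  rw [e2, sum_congr rfl fun σ _ => key σ, ← sum_filter, ← mul_sum]
  have e3 : ∑ σ : ι → Option (Fin k) with ((∀ p, σ p ≠ some m) ∧ ∑ p ∈ cls σ m', l p ≤ Y ∧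
      rem m' σ = t), ∏ p ∈ cls σ m', q p = ZZ q l Y t := by
    unfold ZZ
    refine sum_nbij' (fun σ => cls σ m') (fun S p => if p ∈ S then some m' else t p) ?_ ?_ ?_ ?_ ?_
    · intro σ hσ
      rw [mem_filter] at hσ ⊢
      obtain ⟨-, h1, h2, h3⟩ := hσ
      refine ⟨mem_univ _, ?_, h2⟩
      rw [Finset.disjoint_left]
      intro p hp hp'
      have hp1 : σ p = some m' := by simpa [cls] using hp
      have hp2 : t p ≠ none := by simpa [supp] using hp'
      apply hp2
      rw [← h3]
      simp [rem, hp1]
    · intro S hS
      rw [mem_filter] at hS ⊢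
      obtain ⟨-, h1, h2⟩ := hS
      have hc : cls (fun p => if p ∈ S then some m' else t p) m' = S := by
        ext p
        simp only [cls, mem_filter, mem_univ, true_and]
        by_cases hp : p ∈ S
        · simp [hp]
        · simp [hp, (ht p).2]
      refine ⟨mem_univ _, ?_, ?_, ?_⟩
      · intro p
        by_cases hp : p ∈ S
        · simp only [hp, if_true]
          intro h
          exact hmm (by simpa using h.symm)
        · simp only [hp, if_false]
          exact (ht p).1
      · rw [hc]; exact h2
      · funext p
        by_cases hp : p ∈ S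
        · have h5 : t p = none := by
            by_contra h6
            exact (Finset.disjoint_left.1 h1 hp) (by simp [supp, h6])
          simp [rem, hp, h5]
        · simp [rem, hp, (ht p).2]
    · intro σ hσ
      rw [mem_filter] at hσ
      obtain ⟨-, h1, h2, h3⟩ := hσ
      funext p
      by_cases hp : σ p = some m'
      · have : p ∈ cls σ m' := by simp [cls, hp]
        simp [this, hp]
      · have : p ∉ cls σ m' := by simp [cls, hp]
        simp only [this, if_false]
        rw [← h3]
        simp [rem, hp]
    · intro S hS
      rw [mem_filter] at hS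
      ext p
      simp only [cls, mem_filter, mem_univ, true_and]
      by_cases hp : p ∈ S
      · simp [hp]
      · simp [hp, (ht p).2]
    · intro σ _
      rfl
  rw [e3]
  field_simp

/-- M2: the majorant agrees with the weight where `m`, `m'` do not occur. -/
theorem FF_hz (pr : ι → ℕ) (hp : ∀ p, 2 ≤ pr p) (m m' : Fin k) (hmm : m ≠ m') (l : ι → ℝ)
    (Y : ℝ) (hY : 0 ≤ Y) (y : (ι → Option (Fin k)) → ℝ) (e : ι → Option (Fin k))
    (he : ∀ p, e p ≠ some m ∧ e p ≠ some m') :
    FF pr (hz m m' (fun p => 1 / ((pr p : ℝ) - 1)) l Y y) e = FF pr y e := by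
  rw [M2_FF pr m m' _ e he, M2_FF pr m m' _ e he]
  have hq : ∀ p, 0 ≤ 1 / ((pr p : ℝ) - 1) := by
    intro p
    have : (2 : ℝ) ≤ pr p := by exact_mod_cast hp p
    have : (0 : ℝ) < (pr p : ℝ) - 1 := by linarith
    positivity
  refine sum_congr rfl fun t _ => ?_
  by_cases ht : ∀ p, t p ≠ some m ∧ t p ≠ some m'
  · rw [M2_yy2 m m' hmm _ l hq Y hY y t ht]
  · push Not at ht
    obtain ⟨p, hp1⟩ := ht
    have h0 : ∏ p, ((if t p = some m ∨ t p = some m' then (0 : ℝ) else 1)
        * Phi (pr p : ℝ) (t p) (e p)) = 0 := by
      refine prod_eq_zero (mem_univ p) ?_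
      have : t p = some m ∨ t p = some m' := by
        by_cases h : t p = some m
        · exact Or.inl h
        · exact Or.inr (hp1 h)
      rw [if_pos this, zero_mul]
    rw [h0, mul_zero, mul_zero]

end

end Pool.Agent.helper85.FC
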